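import Pool.Agent.Q32.Gap.Half5

set_option autoImplicit false

/-!
# MP_8958e8_nt: more than half of the gaps between consecutive zeta zeros exceed 0.56 mean spacings

No hypothesis is assumed.  Let `γ 1 ≤ γ 2 ≤ ...` be the ordinates of the nontrivial zeros of zeta in the upper
half-plane, on or off the critical line, with multiplicity.  In every interval `(T, T + H]`, `T ^ (1 - d) ≤ H ≤ T`, the
proportion of the gaps `γ (n + 1) - γ n` of length at most `lam` mean spacings is at most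
`(c - 1 + ε) / min (2 / 3, g lam)`, where `c = 1 / 2 + cot (1 / √2) / √2 = 1.3275` and `g lam` is explicit.  So at least
50.8 % of the gaps are longer than `0.56` mean spacings, 42.5 % are longer than `0.6`, and 25.7 % are longer than
`0.65`.  It follows that for every `β > 0.56` at least `(0.508 β - 1) / (β - 0.56) N(T, T + H)` ordered pairs of ordinates
in `(T, T + H]` have a difference between `0.56` and `β` mean spacings.
-/

open Finset Filter Topology MeasureTheory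

namespace Pool.Agent.Results.MP_8958e8_nt.HalfSpacing

/-- the nontrivial zeros of zeta with ordinate in `(T₁, T₂]` -/
def zeros (T₁ T₂ : ℝ) : Set ℂ :=
  {s : ℂ | riemannZeta s = 0 ∧ 0 < s.re ∧ s.re < 1 ∧ T₁ < s.im ∧ s.im ≤ T₂}

/-- the number of nontrivial zeros with ordinate in `(T₁, T₂]`, counted with multiplicity -/
noncomputable def N (T₁ T₂ : ℝ) : ℕ := ∑ᶠ s ∈ zeros T₁ T₂, analyticOrderNatAt riemannZeta s

/-- the ordinate with number `n`, counted with multiplicity -/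
noncomputable def γ (n : ℕ) : ℝ := sInf {t : ℝ | 0 ≤ t ∧ n ≤ N 0 t}

/-- the constant `c = 1/2 + cot(1/√2)/√2 = 1.3275...` -/
noncomputable def c : ℝ := 1 / 2 + Real.cot (1 / Real.sqrt 2) / Real.sqrt 2

/-- the kernel -/
noncomputable def K (u : ℝ) : ℝ :=
  (∫ t in (-1 / 2 : ℝ)..(1 / 2), Real.cos (Real.sqrt 2 * t) * Real.cos (2 * Real.pi * u * t)) /
    (Real.sqrt 2 * Real.sin (1 / Real.sqrt 2))

/-- the gap function -/
noncomputable def g (u : ℝ) : ℝ := if K u ≤ 1 / 2 then 2 * K u ^ 2 else 2 * K u - 1 / 2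

/-- the number of the gaps starting in `(T, T + H]` of length at most `lam` mean spacings -/
noncomputable def short (lam T H : ℝ) : ℕ :=
  {n : ℕ | N 0 T < n ∧ n ≤ N 0 (T + H) ∧ γ (n + 1) - γ n ≤ lam * (2 * Real.pi / Real.log T)}.ncard

/-- the number of the gaps starting in `(T, T + H]` of length more than `lam` mean spacings -/
noncomputable def long (lam T H : ℝ) : ℕ :=
  {n : ℕ | N 0 T < n ∧ n ≤ N 0 (T + H) ∧ lam * (2 * Real.pi / Real.log T) < γ (n + 1) - γ n}.ncard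

/-- the number of the ordered pairs of ordinates in `(T, T + H]`, counted with multiplicity, whose difference is between
`α` and `β` mean spacings -/
noncomputable def pairs (T H α β : ℝ) : ℕ :=
  {q : ℕ × ℕ | (N 0 T < q.1 ∧ q.1 ≤ N 0 (T + H)) ∧ (N 0 T < q.2 ∧ q.2 ≤ N 0 (T + H)) ∧
    α ≤ (γ q.1 - γ q.2) * Real.log T / (2 * Real.pi) ∧
      (γ q.1 - γ q.2) * Real.log T / (2 * Real.pi) ≤ β}.ncard

theorem N_eq : N = Pool.Agent.Q32.Gap.N := rfl

theorem γ_eq : γ = Pool.Agent.Q32.Gap.ord := rfl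

theorem g_eq : g = Pool.Agent.Q32.Gap.gn := rfl

theorem c_eq : c = Pool.Agent.Q32.Gap.c 1 := rfl

/-- from long gaps to pairs -/
theorem pairs_ge {T H β : ℝ} (hT : 10 ≤ T) (hH : 0 ≤ H) (hβ : 0.56 < β) (hN : 4000 ≤ (N T (T + H) : ℝ))
    (hM : H / (2 * Real.pi) * Real.log T ≤ (1 + 0.0001) * N T (T + H))
    (hl : 0.5085 * (N T (T + H) : ℝ) ≤ long 0.56 T H) :
    (0.508 * β - 1) / (β - 0.56) * (N T (T + H) : ℝ) ≤ pairs T H 0.56 β := by
  classical
  have hpi := Real.pi_pos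
  have hL : 0 < Real.log T := Real.log_pos (by linarith)
  set a := N 0 T with ha
  set b := N 0 (T + H) with hb
  set σ : ℝ := 2 * Real.pi / Real.log T with hσ
  have hσ0 : 0 < σ := by positivity
  set L := (Ioc a b).filter (fun n => 0.56 * σ < γ (n + 1) - γ n) with hLdef
  have hlong : long 0.56 T H = L.card := by
    unfold long
    rw [← Set.ncard_coe_finset]
    congr 1
    ext x
    rw [hLdef, Set.mem_ofPred_eq, mem_coe, mem_filter, mem_Ioc, and_assoc]
  set L' := L.erase b with hL'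
  have hL'c : L.card ≤ L'.card + 1 := by
    have := pred_card_le_card_erase (s := L) (a := b)
    rw [← hL'] at this
    omega
  have hL'm : ∀ n ∈ L', a < n ∧ n < b ∧ 0.56 * σ < γ (n + 1) - γ n := by
    intro n hn
    rw [hL', mem_erase, hLdef, mem_filter, mem_Ioc] at hn
    exact ⟨hn.2.1.1, by have := hn.2.1.2; have := hn.1; omega, hn.2.2⟩
  set L1 := L'.filter (fun n => γ (n + 1) - γ n ≤ β * σ) with hL1
  set L2 := L'.filter (fun n => ¬ γ (n + 1) - γ n ≤ β * σ) with hL2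
  have hsplit : L1.card + L2.card = L'.card := card_filter_add_card_filter_not _
  have hsum := Pool.Agent.Q32.Gap.sum_gaps (T := T) (H := H) (by linarith) hH L' (fun n hn =>
    ⟨(hL'm n hn).1, (hL'm n hn).2.1⟩)
  have hs1 : 0.56 * σ * (L1.card : ℝ) ≤ ∑ n ∈ L1, (γ (n + 1) - γ n) := by
    rw [mul_comm, ← nsmul_eq_mul, ← sum_const]
    refine sum_le_sum fun n hn => ?_
    rw [hL1, mem_filter] at hn
    exact (hL'm n hn.1).2.2.le
  have hs2 : β * σ * (L2.card : ℝ) ≤ ∑ n ∈ L2, (γ (n + 1) - γ n) := by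
    rw [mul_comm, ← nsmul_eq_mul, ← sum_const]
    refine sum_le_sum fun n hn => ?_
    rw [hL2, mem_filter, not_le] at hn
    exact hn.2.le
  have hs3 : ∑ n ∈ L1, (γ (n + 1) - γ n) + ∑ n ∈ L2, (γ (n + 1) - γ n) = ∑ n ∈ L', (γ (n + 1) - γ n) :=
    sum_filter_add_sum_filter_not _ _ _
  have hs4 : 0.56 * σ * (L1.card : ℝ) + β * σ * (L2.card : ℝ) ≤ H := by
    have : ∑ n ∈ L', (γ (n + 1) - γ n) ≤ H := hsum
    linarith
  -- the pairs
  have hp : L1.card ≤ pairs T H 0.56 β := by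
    have hfin : {q : ℕ × ℕ | (N 0 T < q.1 ∧ q.1 ≤ N 0 (T + H)) ∧ (N 0 T < q.2 ∧ q.2 ≤ N 0 (T + H)) ∧
      0.56 ≤ (γ q.1 - γ q.2) * Real.log T / (2 * Real.pi) ∧
      (γ q.1 - γ q.2) * Real.log T / (2 * Real.pi) ≤ β}.Finite := by
      refine ((Ioc a b) ×ˢ (Ioc a b)).finite_toSet.subset ?_
      rintro q ⟨⟨h1, h2⟩, ⟨h3, h4⟩, -⟩
      rw [mem_coe, mem_product, mem_Ioc, mem_Ioc]
      exact ⟨⟨h1, h2⟩, ⟨h3, h4⟩⟩
    unfold pairs
    have h1 : (L1.image (fun n => (n + 1, n))).card = L1.card :=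
      card_image_of_injective _ fun x y h => (Prod.mk.inj h).2
    rw [← h1, ← Set.ncard_coe_finset]
    refine Set.ncard_le_ncard ?_ hfin
    intro q hq
    rw [mem_coe, mem_image] at hq
    obtain ⟨n, hn, rfl⟩ := hq
    rw [hL1, mem_filter] at hn
    obtain ⟨m1, m2, m3⟩ := hL'm n hn.1
    have e : (γ (n + 1) - γ n) * Real.log T / (2 * Real.pi) = (γ (n + 1) - γ n) / σ := by
      rw [hσ]; field_simp
    refine ⟨⟨?_, ?_⟩, ⟨m1, m2.le⟩, ?_, ?_⟩
    · show a < n + 1
      omega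
    · show n + 1 ≤ b
      omega
    · show 0.56 ≤ (γ (n + 1) - γ n) * Real.log T / (2 * Real.pi)
      rw [e, le_div_iff₀ hσ0]
      exact m3.le
    · show (γ (n + 1) - γ n) * Real.log T / (2 * Real.pi) ≤ β
      rw [e, div_le_iff₀ hσ0]
      exact hn.2
  -- arithmetic
  have hX : (L1.card : ℝ) + L2.card + 1 ≥ 0.5085 * N T (T + H) := by
    have h1 : (L.card : ℝ) ≤ L1.card + L2.card + 1 := by
      have : L.card ≤ L1.card + L2.card + 1 := by omega
      exact_mod_cast this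
    rw [hlong] at hl
    linarith
  have hM2 : H / (2 * Real.pi) * Real.log T = H / σ := by rw [hσ]; field_simp
  rw [hM2] at hM
  have hs5 : 0.56 * (L1.card : ℝ) + β * L2.card ≤ H / σ := by
    rw [le_div_iff₀ hσ0]
    linarith
  have hβ' : 0 < β - 0.56 := by linarith
  have hp' : (L1.card : ℝ) ≤ pairs T H 0.56 β := by exact_mod_cast hp
  refine le_trans ?_ hp'
  rw [div_mul_eq_mul_div, div_le_iff₀ hβ']
  have hX2 : β * (0.5085 * N T (T + H) - 1) ≤ β * (L1.card + L2.card) :=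
    mul_le_mul_of_nonneg_left (by linarith) (by norm_num at hβ; linarith)
  have hX3 : 0.56 * (0.0005 * (N T (T + H) : ℝ) - 1) ≤ β * (0.0005 * N T (T + H) - 1) :=
    mul_le_mul_of_nonneg_right hβ.le (by norm_num; linarith)
  have e1 : (L1.card : ℝ) * (β - 0.56) = β * (L1.card + L2.card) - (0.56 * (L1.card : ℝ) + β * L2.card) := by
    ring
  rw [e1]
  norm_num at hX2 hX3 hM hs5 ⊢
  linarith

theorem result :
    -- the proportion of the short gaps
    (∀ lam ε : ℝ, 0 < lam → lam ≤ 1 → 0 < ε → ∃ d : ℝ, 0 < d ∧ d < 1 ∧ ∃ T₀ : ℝ, ∀ T : ℝ, T₀ ≤ T →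
      ∀ H : ℝ, T ^ (1 - d) ≤ H → H ≤ T →
        min (2 / 3) (g lam) * (short lam T H : ℝ) ≤ (c - 1 + ε) * N T (T + H)) ∧
    (c ≤ 1.327503 ∧ 2 / 3 ≤ g 0.56 ∧ 0.57 ≤ g 0.6 ∧ 0.441 ≤ g 0.65) ∧
    -- more than half of the gaps exceed 0.56 mean spacings; pairs of ordinates
    (∃ d : ℝ, 0 < d ∧ d < 1 ∧ ∃ T₀ : ℝ, ∀ T : ℝ, T₀ ≤ T → ∀ H : ℝ, T ^ (1 - d) ≤ H → H ≤ T →
      0.508 * (N T (T + H) : ℝ) ≤ long 0.56 T H ∧
      0.425 * (N T (T + H) : ℝ) ≤ long 0.6 T H ∧
      0.257 * (N T (T + H) : ℝ) ≤ long 0.65 T H ∧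
      ∀ β : ℝ, 0.56 < β →
        (0.508 * β - 1) / (β - 0.56) * (N T (T + H) : ℝ) ≤ pairs T H 0.56 β) := by
  refine ⟨?_, ⟨?_, ?_, ?_, ?_⟩, ?_⟩
  · intro lam ε h0 h1 hε
    obtain ⟨d, hd0, hd1, T₀, -, h⟩ := Pool.Agent.Q32.Gap.short_main lam (min ε 1) h0 h1
      (lt_min hε one_pos) (min_le_right _ _)
    refine ⟨d, hd0, hd1, T₀, fun T hT H hH1 hH2 => ((h T hT H hH1 hH2).2).trans ?_⟩
    apply mul_le_mul_of_nonneg_right _ (Nat.cast_nonneg _)
    have := min_le_left ε 1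
    have e : c = Pool.Agent.Q32.Gap.c 1 := rfl
    rw [e]
    linarith
  · exact H370.Expl.cMTinv_num
  · exact Pool.Agent.Q32.Gap.gn56
  · exact Pool.Agent.Q32.Gap.gn60
  · exact Pool.Agent.Q32.Gap.gn65
  · obtain ⟨d1, hd1, hd1', T1, hT1, h1⟩ := Pool.Agent.Q32.Gap.long_of_short 0.56 (2 / 3) 0.5085
      (by norm_num) (by norm_num) (by norm_num) le_rfl Pool.Agent.Q32.Gap.gn56 (by norm_num)
    obtain ⟨d2, hd2, hd2', T2, hT2, h2⟩ := Pool.Agent.Q32.Gap.long_of_short 0.6 0.57 0.425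
      (by norm_num) (by norm_num) (by norm_num) (by norm_num) Pool.Agent.Q32.Gap.gn60 (by norm_num)
    obtain ⟨d3, hd3, hd3', T3, hT3, h3⟩ := Pool.Agent.Q32.Gap.long_of_short 0.65 0.441 0.257
      (by norm_num) (by norm_num) (by norm_num) (by norm_num) Pool.Agent.Q32.Gap.gn65 (by norm_num)
    set d := min d1 (min d2 d3) with hd
    have hdd1 : d ≤ d1 := min_le_left _ _
    have hdd2 : d ≤ d2 := (min_le_right _ _).trans (min_le_left _ _)
    have hdd3 : d ≤ d3 := (min_le_right _ _).trans (min_le_right _ _)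
    have hd0 : 0 < d := lt_min hd1 (lt_min hd2 hd3)
    have htop : Tendsto (fun T : ℝ => T ^ (1 - d)) atTop atTop :=
      tendsto_rpow_atTop (by linarith)
    obtain ⟨T4, hT4⟩ := (htop.eventually_ge_atTop 100000).exists_forall_of_atTop
    refine ⟨d, hd0, by linarith, max (max T1 T2) (max (max T3 T4) 10), fun T hT H hH1 hH2 => ?_⟩
    have hTa : T1 ≤ T := ((le_max_left _ _).trans (le_max_left _ _)).trans hT
    have hTb : T2 ≤ T := ((le_max_right _ _).trans (le_max_left _ _)).trans hT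
    have hTc : T3 ≤ T := (((le_max_left _ _).trans (le_max_left _ _)).trans (le_max_right _ _)).trans hT
    have hTd : T4 ≤ T := (((le_max_right _ _).trans (le_max_left _ _)).trans (le_max_right _ _)).trans hT
    have hT10 : 10 ≤ T := ((le_max_right _ _).trans (le_max_right _ _)).trans hT
    have hpow : ∀ e : ℝ, d ≤ e → T ^ (1 - e) ≤ H := fun e he =>
      (Real.rpow_le_rpow_of_exponent_le (by linarith) (by linarith)).trans hH1
    obtain ⟨a1, b1⟩ := h1 T hTa H (hpow d1 hdd1) hH2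
    obtain ⟨-, b2⟩ := h2 T hTb H (hpow d2 hdd2) hH2
    obtain ⟨-, b3⟩ := h3 T hTc H (hpow d3 hdd3) hH2
    have hHbig : (100000 : ℝ) ≤ H := (hT4 T hTd).trans hH1
    have hN0 : (0 : ℝ) ≤ (N T (T + H) : ℝ) := Nat.cast_nonneg _
    have hb1 : 0.5085 * (N T (T + H) : ℝ) ≤ long 0.56 T H := b1
    have ha1 : H / (2 * Real.pi) * Real.log T ≤ (1 + 0.0001) * (N T (T + H) : ℝ) := a1
    refine ⟨?_, b2, b3, fun β hβ => pairs_ge hT10 (by linarith) hβ ?_ ha1 hb1⟩
    · refine le_trans ?_ hb1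
      apply mul_le_mul_of_nonneg_right (by norm_num) hN0
    · -- many zeros
      have hpi := Real.pi_pos
      have hpi4 := Real.pi_lt_d2
      have hlog : 1 ≤ Real.log T := by
        rw [Real.le_log_iff_exp_le (by linarith)]
        exact (Real.exp_one_lt_d9.le.trans (by norm_num)).trans hT10
      have h5 : (100000 : ℝ) / (2 * Real.pi) ≤ H / (2 * Real.pi) * Real.log T := by
        have h6 : (100000 : ℝ) / (2 * Real.pi) ≤ H / (2 * Real.pi) := by gcongr
        have h7 : 0 ≤ H / (2 * Real.pi) := by positivity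
        nlinarith
      have h8 : (10000 : ℝ) ≤ 100000 / (2 * Real.pi) := by
        rw [le_div_iff₀ (by positivity)]
        norm_num at hpi4 ⊢
        linarith
      norm_num at ha1
      linarith

end Pool.Agent.Results.MP_8958e8_nt.HalfSpacing
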