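import Pool.Agent.Q212.PW.Pairs
import Pool.Agent.H307R2.Sg6

/-!
# The pair correlation formula up to a bounded error, unconditionally

`N(T; α, β)` is the number of ordered pairs of ordinates `γ₁, γ₂ ∈ [0, T]` of nontrivial zeros of
zeta (on and off the critical line, with multiplicity) with `(γ₁ - γ₂) log T / 2π ∈ [α, β]`, and
`X = T log T / 2π`.  Nothing is assumed.

* There is an absolute constant `C` with `|N(T; α, β) - X ∫_α^β F| ≤ C X` for all `0 ≤ α < β` and
  all large `T`.  So the formula of the problem holds up to a bounded error in the density, and the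
  ratio of its two sides is `1 + O (1 / (β - α))`, uniformly in `α`.
* Uniformity: for every `B` there is `C` with the same inequality for all large `T` and all
  `0 ≤ α < β` with `β log β ≤ B log T`, and with
  `|N(T; α, β) - (1 - 2πα / (T log T)) (β - α) X| ≤ C √(1 + log (1 + β - α)) X`
  for all `0 ≤ α < β ≤ T log T / 2π` with `(β - α) log (β - α) ≤ B log T`, that is for windows at
  every distance that occurs.

Proof.  The pairs are counted by the integral over `t` of the product of the numbers of zeros in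
`(t, t + δ]` and in `(t + x, t + x + w]`.  The correlation of the deviations of two such numbers
from their means is a combination of four number variances (polarisation), in which the logarithms
of the theorem of Selberg and Fujii cancel up to a constant (starting library, `TH850.UV.nv2`); for
windows at long distances it is estimated by the inequality of Cauchy and Schwarz.
-/

set_option autoImplicit false

open Filter Topology

namespace Pool.Agent.Results.MP_8958e8_nt.LongWindows

/-- the nontrivial zeros of `ζ` with ordinate in `[0, T]` -/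
def zeros (T : ℝ) : Set ℂ :=
  {s : ℂ | 0 < s.re ∧ s.re < 1 ∧ 0 ≤ s.im ∧ s.im ≤ T ∧ riemannZeta s = 0}

/-- the multiplicity of `s` as a zero of `ζ` -/
noncomputable def mult (s : ℂ) : ℕ := analyticOrderNatAt riemannZeta s

/-- `N(T; α, β)`: the number of ordered pairs `(γ₁, γ₂)` of ordinates in `[0, T]`, counted with
multiplicity, with `(γ₁ - γ₂) log T / 2π` in `[α, β]` -/
noncomputable def N (T α β : ℝ) : ℕ :=
  ∑ᶠ s ∈ zeros T, ∑ᶠ s' ∈ zeros T,
    if α ≤ (s.im - s'.im) * Real.log T / (2 * Real.pi) ∧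
      (s.im - s'.im) * Real.log T / (2 * Real.pi) ≤ β
    then mult s * mult s' else 0

/-- `F(u) = 1 - (sin πu / πu)²` -/
noncomputable def F (u : ℝ) : ℝ := 1 - (Real.sin (Real.pi * u) / (Real.pi * u)) ^ 2

/-- `X(T) = T log T / 2π` -/
noncomputable def X (T : ℝ) : ℝ := T * Real.log T / (2 * Real.pi)

open Pool.Agent.Q212.PW

lemma zeros_eq (T : ℝ) : zeros T = ((Zs T : Finset ℂ) : Set ℂ) := by
  ext s
  rw [Finset.mem_coe, mem_Zs]
  constructor
  · rintro ⟨h1, h2, h3, h4, h5⟩
    rcases h3.lt_or_eq with h | h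
    · exact ⟨h5, h1, h2, h, h4⟩
    · exfalso
      have h6 : s = ((s.re : ℝ) : ℂ) := by
        apply Complex.ext <;> simp [← h]
      have h7 := (Pool.Agent.H307R2.zeta_neg h1 h2).1
      rw [← h6, h5] at h7
      simp at h7
  · rintro ⟨h5, h1, h2, h3, h4⟩
    exact ⟨h1, h2, h3.le, h4, h5⟩

lemma N_eq {T : ℝ} (hT : 1 < T) (α β : ℝ) : (N T α β : ℝ) = PN T (hw T α) (hw T β) := by
  classical
  have hL : 0 < Real.log T := Real.log_pos hT
  have hpi := Real.pi_pos
  unfold N PN ce
  rw [zeros_eq, finsum_mem_coe_finset]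
  push_cast
  have e1 : ∀ s : ℂ, ((∑ᶠ s' ∈ ((Zs T : Finset ℂ) : Set ℂ),
      (if α ≤ (s.im - s'.im) * Real.log T / (2 * Real.pi) ∧
        (s.im - s'.im) * Real.log T / (2 * Real.pi) ≤ β then mult s * mult s' else 0) : ℕ) : ℝ) =
      ∑ s' ∈ Zs T, mu s' * (mu s *
        (if hw T α ≤ s.im - s'.im ∧ s.im - s'.im ≤ hw T β then 1 else 0)) := by
    intro s
    rw [finsum_mem_coe_finset]
    push_cast
    refine Finset.sum_congr rfl fun s' _ => ?_
    have h1 : (α ≤ (s.im - s'.im) * Real.log T / (2 * Real.pi) ∧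
        (s.im - s'.im) * Real.log T / (2 * Real.pi) ≤ β) ↔
        (hw T α ≤ s.im - s'.im ∧ s.im - s'.im ≤ hw T β) := by
      unfold hw
      rw [le_div_iff₀ (by positivity), div_le_iff₀ (by positivity), div_le_iff₀ hL, le_div_iff₀ hL]
      constructor
      · rintro ⟨a1, a2⟩
        constructor <;> linarith
      · rintro ⟨a1, a2⟩
        constructor <;> linarith
    by_cases h : hw T α ≤ s.im - s'.im ∧ s.im - s'.im ≤ hw T β
    · rw [if_pos (h1.2 h), if_pos h]
      change (mult s : ℝ) * mult s' = (mult s' : ℝ) * ((mult s : ℝ) * 1)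
      ring
    · rw [if_neg (fun h' => h (h1.1 h')), if_neg h]
      ring
  rw [Finset.sum_congr rfl fun s _ => e1 s, Finset.sum_comm]
  refine Finset.sum_congr rfl fun s' _ => ?_
  rw [Finset.mul_sum]

lemma F_ii (α β : ℝ) : IntervalIntegrable F MeasureTheory.volume α β := by
  refine ii_of (by unfold F; fun_prop) ⟨1, fun u _ => ?_⟩
  have h1 : |Real.sin (Real.pi * u) / (Real.pi * u)| ≤ 1 := by
    rw [abs_div]
    exact div_le_one_of_le₀ Real.abs_sin_le_abs (abs_nonneg _)
  have h2 := (sq_le_one_iff_abs_le_one _).2 h1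
  have h3 := sq_nonneg (Real.sin (Real.pi * u) / (Real.pi * u))
  unfold F
  rw [abs_le]
  constructor <;> linarith

/-- the integral of `F` -/
lemma F_int {α β : ℝ} (hα : 0 ≤ α) (h : α ≤ β) : |(β - α) - ∫ u in α..β, F u| ≤ 4 := by
  have hpi := Real.pi_gt_three
  have hpi' := Real.pi_lt_d2
  have hb : ∀ u : ℝ, 0 ≤ 1 - F u ∧ 1 - F u ≤ 2 * (1 / (1 + u ^ 2)) := by
    intro u
    have e : 1 - F u = (Real.sin (Real.pi * u) / (Real.pi * u)) ^ 2 := by unfold F; ring
    rw [e]
    refine ⟨sq_nonneg _, ?_⟩
    rw [mul_one_div, le_div_iff₀ (by positivity)]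
    have h1 : |Real.sin (Real.pi * u) / (Real.pi * u)| ≤ 1 := by
      rw [abs_div]
      exact div_le_one_of_le₀ Real.abs_sin_le_abs (abs_nonneg _)
    have h2 := (sq_le_one_iff_abs_le_one _).2 h1
    have h3 : (Real.sin (Real.pi * u) / (Real.pi * u)) ^ 2 * u ^ 2 ≤ 1 := by
      rcases eq_or_ne u 0 with h0 | h0
      · rw [h0]; simp
      · have e2 : (Real.sin (Real.pi * u) / (Real.pi * u)) ^ 2 * u ^ 2 =
            Real.sin (Real.pi * u) ^ 2 / Real.pi ^ 2 := by
          field_simp
        rw [e2, div_le_one (by positivity)]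
        have h4 := Real.sin_sq_le_one (Real.pi * u)
        nlinarith
    linarith
  have i1 : IntervalIntegrable (fun u => 1 - F u) MeasureTheory.volume α β :=
    (by simp : IntervalIntegrable (fun _ : ℝ => (1 : ℝ)) MeasureTheory.volume α β).sub (F_ii α β)
  have e3 : (β - α) - ∫ u in α..β, F u = ∫ u in α..β, (1 - F u) := by
    rw [intervalIntegral.integral_sub (by simp) (F_ii α β)]
    simp
  rw [e3, abs_of_nonneg (intervalIntegral.integral_nonneg h fun u _ => (hb u).1)]
  have i2 : IntervalIntegrable (fun u : ℝ => 2 * (1 / (1 + u ^ 2))) MeasureTheory.volume α β := by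
    apply Continuous.intervalIntegrable
    have : ∀ x : ℝ, 1 + x ^ 2 ≠ 0 := fun x => by positivity
    fun_prop (disch := exact this _)
  refine (intervalIntegral.integral_mono_on h i1 i2 fun u _ => (hb u).2).trans ?_
  rw [intervalIntegral.integral_const_mul, integral_one_div_one_add_sq]
  have h5 := Real.arctan_lt_pi_div_two β
  have h6 := Real.arctan_nonneg.2 hα
  linarith

/-- the passage to the integral of `F` -/
lemma with_F {T α β P C : ℝ} (hT : 1 < T) (hα : 0 ≤ α) (h : α ≤ β)
    (hP : |P - (β - α) * XX T| ≤ C * XX T) :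
    |P - X T * ∫ u in α..β, F u| ≤ (C + 4) * X T := by
  have hX : 0 < XX T := by
    have hL : 0 < Real.log T := Real.log_pos hT
    have hpi := Real.pi_pos
    have hT0 : 0 < T := by linarith
    unfold XX
    positivity
  have e : X T = XX T := rfl
  rw [e]
  have h1 := F_int hα h
  have h2 : P - XX T * ∫ u in α..β, F u =
      (P - (β - α) * XX T) + XX T * ((β - α) - ∫ u in α..β, F u) := by ring
  rw [h2]
  refine (abs_add_le _ _).trans ?_
  have h3 : |XX T * ((β - α) - ∫ u in α..β, F u)| ≤ XX T * 4 := by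
    rw [abs_mul, abs_of_pos hX]
    exact mul_le_mul_of_nonneg_left h1 hX.le
  linarith

/-- **The pair correlation formula up to a bounded error.** -/
theorem result :
    -- an absolute constant
    (∃ C : ℝ, 0 < C ∧ ∀ α β : ℝ, 0 ≤ α → α < β → ∀ᶠ T in atTop,
      |(N T α β : ℝ) - X T * ∫ u in α..β, F u| ≤ C * X T) ∧
    -- uniformity
    (∀ B : ℝ, 1 ≤ B → ∃ C T₀ : ℝ, 0 < C ∧ 3 ≤ T₀ ∧ ∀ T : ℝ, T₀ ≤ T → ∀ α β : ℝ, 0 ≤ α → α < β →
      (β * Real.log β ≤ B * Real.log T →
        |(N T α β : ℝ) - X T * ∫ u in α..β, F u| ≤ C * X T) ∧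
      ((β - α) * Real.log (β - α) ≤ B * Real.log T → β ≤ X T →
        |(N T α β : ℝ) - (1 - α / X T) * (β - α) * X T| ≤
          C * Real.sqrt (1 + Real.log (1 + (β - α))) * X T)) := by
  have hpi := Real.pi_pos
  constructor
  · obtain ⟨C, T₀, hC, hT₀, h⟩ := near 1 le_rfl
    refine ⟨C + 4, by linarith, fun α β hα hαβ => ?_⟩
    filter_upwards [eventually_ge_atTop T₀,
      Real.tendsto_log_atTop.eventually_ge_atTop (β * Real.log β)] with T hT hL
    have hT1 : 1 < T := by linarith
    rw [N_eq hT1]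
    exact with_F hT1 hα hαβ.le (h T hT α β hα hαβ.le (by linarith))
  · intro B hB
    obtain ⟨C₁, T₁, hC₁, hT₁, h₁⟩ := near B hB
    obtain ⟨C₂, T₂, hC₂, hT₂, h₂⟩ := far B hB
    refine ⟨(C₁ + 4) + C₂, max T₁ T₂, by linarith, by linarith [le_max_left T₁ T₂],
      fun T hT α β hα hαβ => ?_⟩
    have hTT1 : T₁ ≤ T := (le_max_left _ _).trans hT
    have hTT2 : T₂ ≤ T := (le_max_right _ _).trans hT
    have hT1 : 1 < T := by linarith
    have hT0 : 0 < T := by linarith
    have hL : 0 < Real.log T := Real.log_pos hT1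
    have hX : 0 < X T := by unfold X; positivity
    rw [N_eq hT1]
    refine ⟨fun hc => ?_, fun hc hβ => ?_⟩
    · refine (with_F hT1 hα hαβ.le (h₁ T hTT1 α β hα hαβ.le hc)).trans ?_
      exact mul_le_mul_of_nonneg_right (by linarith) hX.le
    · have hβT : hw T β ≤ T := by
        unfold X at hβ
        unfold hw
        rw [le_div_iff₀ (by positivity)] at hβ
        rw [div_le_iff₀ hL]
        linarith
      have h3 := h₂ T hTT2 α β hα hαβ.le hc hβT
      have e1 : hw T α / T = α / X T := by
        unfold hw X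
        field_simp
      have e2 : (β - α) * (1 - hw T α / T) * XX T = (1 - α / X T) * (β - α) * X T := by
        rw [e1]
        change (β - α) * (1 - α / X T) * X T = _
        ring
      rw [e2] at h3
      refine h3.trans ?_
      change C₂ * Real.sqrt (1 + Real.log (1 + (β - α))) * X T ≤ _
      have h4 : 0 ≤ Real.sqrt (1 + Real.log (1 + (β - α))) := Real.sqrt_nonneg _
      exact mul_le_mul_of_nonneg_right (mul_le_mul_of_nonneg_right (by linarith) h4) hX.le

end Pool.Agent.Results.MP_8958e8_nt.LongWindows
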