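import Pool.Agent.TH342.CV.Pairs
import Pool.Agent.H370R2.Expl1
import Pool.Agent.Q9.RP.Main

/-!
# Recurrence for the pair correlation of the simple critical zeros

No hypothesis is assumed.  Let `p = 2 - c_MT⁻¹ = 0.6725…` be the Montgomery-Taylor proportion.  For
the pairs of simple zeros on the critical line of two Dirichlet L-functions with ordinates `x`, `y`
and `(y - x) log T / 2π` in a long window `(α, α + L)` the proportion `2 p - 1 = 0.3449…` of the
expected number `L (H / 2π) log T` is known (in this repository) at every position of the window,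
and `2 p - 1` is what two sequences of density `p` can be forced to have at a given position.  Here
we prove that the larger proportion `p² = 0.4522…` of two independent sequences is reached again and
again: among any `m` positions `a 1, …, a m` of windows (for `m` primitive Dirichlet L-functions
`F 1, …, F m`, equal or not) there are two, `i < j`, such that for a window of length `L` next to
`a j - a i` the proportion is at least

`c m κ - ε`, `c m κ = (2 κ m p - κ (κ + 1)) / (m (m - 1))`,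

for every `κ ≤ m`, and `max_κ c m κ ≥ p² - p (1 - p) / (m - 1)`.  So, as in Khintchine's recurrence
theorem, for every single L-function and every `x` one of the distances `x, 2 x, …, M x` has at
least the proportion `p² - ε` of the expected number of pairs, with `M` depending only on `ε`, and
one of the distances `x, 2 x, 3 x` has at least `39.6 %`.

Idea of the proof.  The counts of simple critical zeros in cells of `g` mean spacings, truncated at
`M = g (1 + o(1))` and divided by `M`, are numbers in `[0, 1]` with average at least `p - o(1)` at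
every position.  For `m` numbers in `[0, 1]` with sum `s` the sum of the products of different ones
is at least `κ s - κ (κ + 1) / 2`, a linear function of `s`, so that averages can be taken: two of
the positions have average product at least `c m κ - o(1)`.  Blocks of cells with a length small
against `L` turn this into pairs with a difference in a window of length `L`.
-/

open Filter Topology Complex

namespace Pool.Agent.Results.MP_8958e8_nt.RecurrentPairs

open Pool.Agent.TH342.CV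

/-- the Montgomery-Taylor proportion `2 - c_MT⁻¹ = 3/2 - cot(1/√2)/√2 = 0.6725…` -/
noncomputable def p : ℝ := 3 / 2 - Real.cot (1 / Real.sqrt 2) / Real.sqrt 2

/-- the proportion of pairs for `m` positions -/
noncomputable def c (m κ : ℕ) : ℝ := (2 * κ * (m * p) - κ * (κ + 1)) / (m * (m - 1))

/-- `1/2 + i x` is a simple zero of `F` -/
def Simple (F : ℂ → ℂ) (x : ℝ) : Prop :=
  F (1 / 2 + x * I) = 0 ∧ analyticOrderNatAt F (1 / 2 + x * I) = 1

/-- the pairs `(x, y)` of ordinates of simple zeros on the critical line, `x ∈ (T, T + H]` of `F` and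
`y` of `G`, with `(y - x) log T / 2π` in the open interval `(α, β)` -/
def pairs (F G : ℂ → ℂ) (T H α β : ℝ) : Set (ℝ × ℝ) :=
  {z | T < z.1 ∧ z.1 ≤ T + H ∧ Simple F z.1 ∧ Simple G z.2 ∧
    α < (z.2 - z.1) * Real.log T / (2 * Real.pi) ∧
    (z.2 - z.1) * Real.log T / (2 * Real.pi) < β}

/-- modulus `1`: the Riemann zeta function -/
theorem zeta_case (χ : DirichletCharacter ℂ 1) :
    χ.IsPrimitive ∧ DirichletCharacter.LFunction χ = riemannZeta := by
  refine ⟨?_, DirichletCharacter.LFunction_modOne_eq⟩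
  rw [DirichletCharacter.level_one' χ rfl]
  exact DirichletCharacter.isPrimitive_one_level_one

lemma pairs_eq {F G : ℂ → ℂ} {T H α β : ℝ} (hT : 1 < T) :
    Q9.RP.PR F G T H (2 * Real.pi / Real.log T) α β = pairs F G T H α β := by
  ext z
  constructor
  · rintro ⟨h1, h2, h3, h4, h5, h6⟩
    exact ⟨h1, h2, h3, h4, (conv1 hT).mp h5, (conv2 hT).mp h6⟩
  · rintro ⟨h1, h2, h3, h4, h5, h6⟩
    exact ⟨h1, h2, h3, h4, (conv1 hT).mpr h5, (conv2 hT).mpr h6⟩

/-- the sets of pairs are finite -/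
theorem pairs_finite {q q' : ℕ} [NeZero q] [NeZero q'] (χ : DirichletCharacter ℂ q)
    (χ' : DirichletCharacter ℂ q') (hχ : χ.IsPrimitive) (hχ' : χ'.IsPrimitive) (T H α β : ℝ)
    (hT : 1 < T) (hα : 1 ≤ T + α * (2 * Real.pi / Real.log T)) :
    (pairs (DirichletCharacter.LFunction χ) (DirichletCharacter.LFunction χ') T H α β).Finite := by
  rw [← pairs_eq hT]
  exact Q9.RP.PR_finite (H370.good_dirichlet χ hχ) (H370.good_dirichlet χ' hχ') hT.le hα

lemma p_eq : p = 2 - H370.cMTinv := by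
  unfold p H370.cMTinv
  ring

lemma p_num : 0.672497 ≤ p := by
  rw [p_eq]
  have := H370.Expl.cMTinv_num
  norm_num at this ⊢
  linarith

lemma p_le : p ≤ 1 := by
  rw [p_eq]
  have := H370.cMTinv_gt_one
  linarith

/-- the best `κ` is the integer part of `m p` -/
lemma exists_k (m : ℕ) (hm : 2 ≤ m) : ∃ κ : ℕ, κ ≤ m ∧ p ^ 2 - p * (1 - p) / (m - 1) ≤ c m κ := by
  have hpn := p_num
  have hpl := p_le
  have hp0 : 0 ≤ p := by norm_num at hpn; linarith
  have hm2 : (2 : ℝ) ≤ m := by exact_mod_cast hm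
  have hm0 : (0 : ℝ) < m := by linarith
  have hm1 : (0 : ℝ) < (m : ℝ) - 1 := by linarith
  refine ⟨⌊(m : ℝ) * p⌋₊, ?_, ?_⟩
  · refine Nat.floor_le_of_le ?_
    calc (m : ℝ) * p ≤ m * 1 := by gcongr
      _ = m := mul_one _
  · set κ : ℕ := ⌊(m : ℝ) * p⌋₊ with hκ
    have h1 : (κ : ℝ) ≤ m * p := Nat.floor_le (by positivity)
    have h2 : (m : ℝ) * p < κ + 1 := Nat.lt_floor_add_one _
    unfold c
    rw [le_div_iff₀ (by positivity)]
    have h3 : (p ^ 2 - p * (1 - p) / ((m : ℝ) - 1)) * ((m : ℝ) * (m - 1)) =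
        (m * p) ^ 2 - m * p := by
      field_simp
      ring
    rw [h3]
    nlinarith

theorem result :
    -- `m` positions and `m` L-functions
    (∀ ε : ℝ, 0 < ε → ∃ L₀ η δ : ℝ, 0 < L₀ ∧ 0 < η ∧ 0 < δ ∧ δ < 1 ∧
      ∀ (m κ : ℕ) (_ : 2 ≤ m) (_ : κ ≤ m) (q : Fin m → ℕ) [∀ i, NeZero (q i)]
        (χ : ∀ i, DirichletCharacter ℂ (q i)), (∀ i, (χ i).IsPrimitive) →
      ∃ T₀ : ℝ, ∀ T : ℝ, T₀ ≤ T → ∀ H : ℝ, T ^ (1 - δ) ≤ H → H ≤ T → ∀ (L : ℝ) (a : Fin m → ℝ),
        L₀ ≤ L → (∀ i, 0 ≤ a i ∧ (a i + L) * (2 * Real.pi / Real.log T) ≤ η * H) →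
        ∃ (i j : Fin m) (α : ℝ), i < j ∧ a j - a i - L ≤ α ∧ α ≤ a j - a i ∧
          (c m κ - ε) * L * (H / (2 * Real.pi) * Real.log T) ≤
            ((pairs (DirichletCharacter.LFunction (χ i)) (DirichletCharacter.LFunction (χ j))
              T H α (α + L)).ncard : ℝ)) ∧
    -- one L-function, the multiples of any distance
    (∀ ε : ℝ, 0 < ε → ∃ (M : ℕ) (L₀ η δ : ℝ), 0 < L₀ ∧ 0 < η ∧ 0 < δ ∧ δ < 1 ∧
      ∀ (q : ℕ) [NeZero q] (χ : DirichletCharacter ℂ q), χ.IsPrimitive →
      ∃ T₀ : ℝ, ∀ T : ℝ, T₀ ≤ T → ∀ H : ℝ, T ^ (1 - δ) ≤ H → H ≤ T → ∀ L x : ℝ,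
        L₀ ≤ L → 0 ≤ x → (M * x + L) * (2 * Real.pi / Real.log T) ≤ η * H →
        ∃ (k : ℕ) (α : ℝ), 1 ≤ k ∧ k ≤ M ∧ k * x - L ≤ α ∧ α ≤ k * x ∧
          (p ^ 2 - ε) * L * (H / (2 * Real.pi) * Real.log T) ≤
            ((pairs (DirichletCharacter.LFunction χ) (DirichletCharacter.LFunction χ)
              T H α (α + L)).ncard : ℝ)) ∧
    -- the constants
    (∀ m : ℕ, 2 ≤ m → ∃ κ : ℕ, κ ≤ m ∧ p ^ 2 - p * (1 - p) / (m - 1) ≤ c m κ) ∧
    0.4522 ≤ p ^ 2 ∧ 0.3966 ≤ c 4 2 := by
  have hpn := p_num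
  have hpl := p_le
  refine ⟨fun ε hε => ?_, fun ε hε => ?_, exists_k, ?_, ?_⟩
  · obtain ⟨L₀, η, δ, hL₀, hη, hδ, hδ1, h⟩ := Q9.RP.main hε
    refine ⟨L₀, η, δ, hL₀, hη, hδ, hδ1, fun m κ hm hκ q _ χ hχ => ?_⟩
    obtain ⟨T₀, hT₀, hT⟩ := h m κ hm hκ (fun i => DirichletCharacter.LFunction (χ i))
      (fun i => H370.good_dirichlet (χ i) (hχ i))
    refine ⟨T₀, fun T hTT H hH hHT L a hL ha => ?_⟩
    obtain ⟨i, j, α, hij, h1, h2, h3⟩ := hT T hTT H hH hHT L a hL ha
    refine ⟨i, j, α, hij, h1, h2, ?_⟩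
    rw [← p_eq, pairs_eq (by linarith)] at h3
    exact h3
  · obtain ⟨L₀, η, δ, hL₀, hη, hδ, hδ1, h⟩ := Q9.RP.main (half_pos hε)
    obtain ⟨N, hN⟩ := exists_nat_ge (2 / ε)
    have hN0 : (0 : ℝ) < N := lt_of_lt_of_le (by positivity) hN
    have hN1 : 1 ≤ N := by
      have : 0 < N := by exact_mod_cast hN0
      omega
    obtain ⟨κ, hκ, hκc⟩ := exists_k (N + 1) (by omega)
    refine ⟨N, L₀, η, δ, hL₀, hη, hδ, hδ1, fun q _ χ hχ => ?_⟩
    obtain ⟨T₀, hT₀, hT⟩ := h (N + 1) κ (by omega) hκ (fun _ => DirichletCharacter.LFunction χ)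
      (fun _ => H370.good_dirichlet χ hχ)
    refine ⟨T₀, fun T hTT H hH hHT L x hL hx hNx => ?_⟩
    have hpi := Real.pi_pos
    have hlog : 0 < Real.log T := Real.log_pos (by linarith)
    obtain ⟨i, j, α, hij, h1, h2, h3⟩ := hT T hTT H hH hHT L (fun i => (i : ℕ) * x) hL (by
      intro i
      refine ⟨by positivity, le_trans ?_ hNx⟩
      have hi : ((i : ℕ) : ℝ) ≤ N := by
        have := i.2
        exact_mod_cast (by omega : (i : ℕ) ≤ N)
      gcongr)
    rw [← p_eq, pairs_eq (by linarith)] at h3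
    have hij' : (i : ℕ) < (j : ℕ) := hij
    have hcast : (((j : ℕ) - (i : ℕ) : ℕ) : ℝ) = ((j : ℕ) : ℝ) - ((i : ℕ) : ℝ) :=
      Nat.cast_sub hij'.le
    refine ⟨(j : ℕ) - (i : ℕ), α, by omega, by omega, ?_, ?_, le_trans ?_ h3⟩
    · rw [hcast]; linarith
    · rw [hcast]; linarith
    · have hH0 : 0 ≤ H := (Real.rpow_nonneg (by linarith) _).trans hH
      have hL0 : 0 ≤ L := by linarith
      apply mul_le_mul_of_nonneg_right _ (by positivity)
      apply mul_le_mul_of_nonneg_right _ hL0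
      have h4 : p * (1 - p) / (((N + 1 : ℕ) : ℝ) - 1) ≤ ε / 2 := by
        push_cast
        rw [add_sub_cancel_right, div_le_iff₀ hN0]
        rw [div_le_iff₀ hε] at hN
        nlinarith
      have h5 : c (N + 1) κ = (2 * (κ : ℝ) * (((N + 1 : ℕ) : ℝ) * p) - κ * (κ + 1)) /
          (((N + 1 : ℕ) : ℝ) * (((N + 1 : ℕ) : ℝ) - 1)) := rfl
      rw [← h5]
      linarith
  · norm_num at hpn ⊢
    nlinarith
  · unfold c
    norm_num at hpn ⊢
    rw [div_le_div_iff₀ (by norm_num) (by norm_num)]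
    linarith

end Pool.Agent.Results.MP_8958e8_nt.RecurrentPairs
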