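import Pool.Agent.Q34.IPZ.Corr

/-!
# Pairs of zeros in arbitrarily short windows at recurrent distances, unconditionally

Let `N(T; α, β)` be the number of pairs of ordinates in `(0, T]` with multiplicity whose difference times `log T / 2π`
lies in `[α, β]` (the number of the question), and let `W(T; x, ε)` be the number of pairs with the weight
`max(0, 1 - |d - x| / ε)`, where `d` is the difference of the ordinates times `log T / 2π`; the expected size of `W(T; x, ε)`
for large `x` is `ε (T/2π) log T`. Let `p = 3/2 - cot(1/√2)/√2 = 0.6725…`, let `0 < ε ≤ 11/24`, `η > 0` and `m ≥ 2`.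
Then for all large `T`, among any `m` real numbers `a_1, …, a_m` of absolute value at most `c T log T` there are two,
`i < j`, such that, with `x = a_j - a_i`,

`N(T; x - ε, x + ε) ≥ W(T; x, ε) ≥ (p² ε - p (1 - p ε) / (m - 1) - η) (T/2π) log T`.

So the proportion `p² = 0.4522…` of the expected value is reached, in windows as short as one likes, at one of the
differences of any `m` numbers, `m` large; for instance at one of `x, 2x, …, (m-1)x` for every `x`.

Idea of the proof. For `ε ≤ 11/24` the proportion `p` of the zeros of `(0, T]` are simple critical zeros with mutual distances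
more than `11/24` mean spacings, so that the set `S` of the `t` with such a zero in `(t, t + w]`, `w = 2π ε / log T`,
has the full density `p ε`; the correlation `∫ 1_S(t) 1_S(t + u) dt` is `w` times the weighted number of pairs, and
Khintchine's argument (a lower bound for the square of `∑ 1_S(t + u_i)`, optimised over integers) applies to `S`.
-/

set_option autoImplicit false

open Filter Topology Complex

namespace Pool.Agent.Results.MP_8958e8_nt.RecurrentShortWindows

/-- the Montgomery-Taylor proportion `2 - c_MT⁻¹ = 3/2 - cot(1/√2)/√2 = 0.6725…` -/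
noncomputable def p : ℝ := 3 / 2 - Real.cot (1 / Real.sqrt 2) / Real.sqrt 2

/-- the nontrivial zeros of zeta with ordinate in `(0, T]` -/
def zeros (T : ℝ) : Set ℂ :=
  {s : ℂ | riemannZeta s = 0 ∧ 0 < s.re ∧ s.re < 1 ∧ 0 < s.im ∧ s.im ≤ T}

/-- the multiplicity of a zero -/
noncomputable def mult (s : ℂ) : ℕ := analyticOrderNatAt riemannZeta s

/-- `N(T; α, β)`: the number of ordered pairs of zeros in `zeros T`, counted with multiplicity,
with difference of the ordinates times `log T / 2π` in `[α, β]` -/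
noncomputable def N (T α β : ℝ) : ℕ :=
  ∑ᶠ s ∈ zeros T, ∑ᶠ s' ∈ {s' : ℂ | s' ∈ zeros T ∧
    α ≤ (s.im - s'.im) * Real.log T / (2 * Real.pi) ∧
    (s.im - s'.im) * Real.log T / (2 * Real.pi) ≤ β}, mult s * mult s'

/-- the number of ordered pairs of zeros in `zeros T`, counted with multiplicity, with the weight
`max(0, 1 - |d - x| / ε)`, where `d` is the difference of the ordinates times `log T / 2π` -/
noncomputable def W (T x ε : ℝ) : ℝ :=
  ∑ᶠ s ∈ zeros T, ∑ᶠ s' ∈ zeros T, (mult s * mult s' : ℝ) *
    max 0 (1 - |(s.im - s'.im) * Real.log T / (2 * Real.pi) - x| / ε)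

lemma zeros_eq (T : ℝ) : zeros T = H370.zset riemannZeta 0 T := by
  ext s
  simp only [zeros, H370.zset, Set.mem_ofPred_eq]
  tauto

/-- the sets of zeros that are summed over are finite -/
theorem zeros_finite (T : ℝ) : (zeros T).Finite := by
  rw [zeros_eq]
  exact H370.zeta_zeros_finite T

lemma p_eq : p = 2 - H370.cMTinv := by
  unfold p H370.cMTinv
  ring

lemma W_eq (T x ε : ℝ) : W T x ε = ∑ s ∈ (zeros_finite T).toFinset, ∑ s' ∈ (zeros_finite T).toFinset,
    (mult s * mult s' : ℝ) * max 0 (1 - |(s.im - s'.im) * Real.log T / (2 * Real.pi) - x| / ε) := by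
  unfold W
  rw [finsum_mem_eq_finite_toFinset_sum _ (zeros_finite T)]
  refine Finset.sum_congr rfl fun s _ => ?_
  rw [finsum_mem_eq_finite_toFinset_sum _ (zeros_finite T)]

/-- the weighted number is at most the number in the window -/
lemma W_le (T x ε : ℝ) (hε : 0 < ε) : W T x ε ≤ N T (x - ε) (x + ε) := by
  classical
  have hN : N T (x - ε) (x + ε) = ∑ s ∈ (zeros_finite T).toFinset,
      ∑ s' ∈ (zeros_finite T).toFinset.filter (fun s' =>
      x - ε ≤ (s.im - s'.im) * Real.log T / (2 * Real.pi) ∧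
      (s.im - s'.im) * Real.log T / (2 * Real.pi) ≤ x + ε), mult s * mult s' := by
    unfold N
    rw [finsum_mem_eq_finite_toFinset_sum _ (zeros_finite T)]
    refine Finset.sum_congr rfl fun s _ => ?_
    have hfin : {s' : ℂ | s' ∈ zeros T ∧
        x - ε ≤ (s.im - s'.im) * Real.log T / (2 * Real.pi) ∧
        (s.im - s'.im) * Real.log T / (2 * Real.pi) ≤ x + ε}.Finite :=
      (zeros_finite T).subset fun _ h => h.1
    rw [finsum_mem_eq_finite_toFinset_sum _ hfin]
    refine Finset.sum_congr ?_ fun _ _ => rfl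
    ext s'
    rw [Set.Finite.mem_toFinset, Finset.mem_filter, Set.Finite.mem_toFinset]
    rfl
  rw [W_eq, hN]
  push_cast
  refine Finset.sum_le_sum fun s _ => ?_
  rw [Finset.sum_filter]
  refine Finset.sum_le_sum fun s' _ => ?_
  have h0 : (0 : ℝ) ≤ mult s * mult s' := by positivity
  split_ifs with h
  · have h1 : max 0 (1 - |(s.im - s'.im) * Real.log T / (2 * Real.pi) - x| / ε) ≤ 1 := by
      refine max_le (by norm_num) ?_
      have : 0 ≤ |(s.im - s'.im) * Real.log T / (2 * Real.pi) - x| / ε := by positivity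
      linarith
    calc (mult s * mult s' : ℝ) * max 0 (1 - |(s.im - s'.im) * Real.log T / (2 * Real.pi) - x| / ε)
        ≤ (mult s * mult s' : ℝ) * 1 := mul_le_mul_of_nonneg_left h1 h0
      _ = _ := mul_one _
  · have h1 : max 0 (1 - |(s.im - s'.im) * Real.log T / (2 * Real.pi) - x| / ε) = 0 := by
      refine max_eq_left ?_
      have h2 : ε < |(s.im - s'.im) * Real.log T / (2 * Real.pi) - x| := by
        by_contra hcon
        push Not at hcon
        have h3 := abs_le.1 hcon
        exact h ⟨by linarith [h3.1], by linarith [h3.2]⟩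
      have h3 : 1 < |(s.im - s'.im) * Real.log T / (2 * Real.pi) - x| / ε := by
        rwa [lt_div_iff₀ hε, one_mul]
      linarith
    rw [h1, mul_zero]

/-- simple critical zeros are among all zeros -/
lemma W_lower (T x ε : ℝ) (A : Finset ℝ)
    (hA : ∀ y ∈ A, (1 / 2 + y * I : ℂ) ∈ zeros T ∧ mult (1 / 2 + y * I : ℂ) = 1) :
    ∑ z ∈ A, ∑ y ∈ A, max 0 (1 - |(y - z) * Real.log T / (2 * Real.pi) - x| / ε) ≤ W T x ε := by
  classical
  rw [W_eq, Finset.sum_comm]
  set Z := (zeros_finite T).toFinset with hZ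
  set g : ℝ → ℂ := fun x => 1 / 2 + x * I with hg
  have him : ∀ x : ℝ, (g x).im = x := by intro x; simp [hg]
  have hinj : Function.Injective g := by
    intro x y hxy
    have := congrArg Complex.im hxy
    rwa [him, him] at this
  have hsub : A.image g ⊆ Z := by
    intro s hs
    obtain ⟨x, hx, rfl⟩ := Finset.mem_image.mp hs
    rw [hZ, Set.Finite.mem_toFinset]
    exact (hA x hx).1
  have hnn : ∀ s s' : ℂ, 0 ≤ (mult s * mult s' : ℝ) *
      max 0 (1 - |(s.im - s'.im) * Real.log T / (2 * Real.pi) - x| / ε) :=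
    fun s s' => mul_nonneg (by positivity) (le_max_left _ _)
  refine le_trans ?_ (Finset.sum_le_sum_of_subset_of_nonneg hsub
    (fun s _ _ => Finset.sum_nonneg fun s' _ => hnn s s'))
  rw [Finset.sum_image fun x _ y _ h => hinj h]
  refine Finset.sum_le_sum fun y hy => ?_
  refine le_trans ?_ (Finset.sum_le_sum_of_subset_of_nonneg hsub (fun s' _ _ => hnn _ s'))
  rw [Finset.sum_image fun x _ y _ h => hinj h]
  refine Finset.sum_le_sum fun z hz => ?_
  rw [him, him]
  have h1 : mult (g y) = 1 := (hA y hy).2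
  have h2 : mult (g z) = 1 := (hA z hz).2
  rw [h1, h2]
  push_cast
  linarith

/-- **Pairs of zeros in arbitrarily short windows at recurrent distances.** -/
theorem result :
    (∀ ε : ℝ, 0 < ε → ε ≤ 11 / 24 → ∀ η : ℝ, 0 < η → ∀ m : ℕ, 2 ≤ m →
      ∃ c : ℝ, 0 < c ∧ ∃ T₀ : ℝ, ∀ T : ℝ, T₀ ≤ T → ∀ a : Fin m → ℝ, (∀ i, |a i| ≤ c * (T * Real.log T)) →
        ∃ i j : Fin m, i < j ∧
          (p ^ 2 * ε - p * (1 - p * ε) / (m - 1) - η) * (T / (2 * Real.pi) * Real.log T) ≤ W T (a j - a i) ε ∧
          W T (a j - a i) ε ≤ N T (a j - a i - ε) (a j - a i + ε)) ∧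
    -- the constant
    0.4522 ≤ p ^ 2 := by
  constructor
  · intro ε hε hε1 η hη m hm
    obtain ⟨c, hc, T0, hT0, h⟩ := Pool.Agent.Q34.IPZ.rec_short H370.good_zeta ε hε hε1 η hη m hm
    refine ⟨c, hc, T0, fun T hT a ha => ?_⟩
    obtain ⟨A, hA, hrec⟩ := h T hT
    obtain ⟨i, j, hij, h1⟩ := hrec a ha
    refine ⟨i, j, hij, ?_, W_le _ _ _ hε⟩
    have h2 := W_lower T (a j - a i) ε A (by
      intro y hy
      obtain ⟨_, h3, h4, h5⟩ := hA y hy
      rw [zeros_eq]
      refine ⟨⟨h4.1, h4.2.1, h4.2.2.1, h4.2.2.2.1.trans h3, h4.2.2.2.2⟩, h5⟩)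
    refine le_trans (le_of_eq ?_) (h1.trans h2)
    rw [p_eq]
    unfold Pool.Agent.Q34.IPZ.MT
    field_simp
  · have h := H370.Expl.cMTinv_num
    rw [p_eq]
    norm_num at h ⊢
    nlinarith

end Pool.Agent.Results.MP_8958e8_nt.RecurrentShortWindows
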